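import Mathlib
import Pool.Agent.H114.PC.Values
import Pool.Agent.H114.PC.Diag

/-!
# MP_956764_co : value sets of monochromatic progression lengths

Q1 for every pattern `v` (nonempty word over `{0,1}`): the set `{A_v(0, d) : d ≥ 1}` is

* for `v = w 1 0^i` : all odd positive integers together with the even integers `2 ^ g * u`,
  `1 ≤ g ≤ i`, `u` odd, `u < 2 ^ (|w| + 1)`;
* for `v = 0^L` : the odd positive integers below `2 ^ L` and the powers `2, 4, ..., 2 ^ L`.

For Q2: the set `{A_v(d) : d ≥ 1}` is an infinite set of positive integers.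
-/

namespace Pool.Agent.Results.MP_956764_co.ValueSets

open Pool.Agent.H114.PC

lemma form (v : List ℕ) (hv : IsPattern v) :
    (∃ w i, v = w ++ 1 :: List.replicate i 0) ∨ v = List.replicate v.length 0 := by
  obtain ⟨_, h⟩ := hv
  induction v using List.reverseRecOn with
  | nil => exact Or.inr rfl
  | append_singleton l a ih =>
    have hl : ∀ x ∈ l, x = 0 ∨ x = 1 := fun x hx => h x (by simp [hx])
    rcases h a (by simp) with h0 | h1
    · subst h0
      by_cases hne : l = []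
      · subst hne
        exact Or.inr rfl
      · rcases ih hne hl with ⟨w, i, hw⟩ | hw
        · left
          refine ⟨w, i + 1, ?_⟩
          rw [hw, List.replicate_succ']
          simp
        · right
          rw [List.length_append, List.length_singleton, List.replicate_succ', ← hw]
    · subst h1
      exact Or.inl ⟨l, 0, by simp⟩

theorem result (v : List ℕ) (hv : IsPattern v) :
    ((∃ w i, v = w ++ 1 :: List.replicate i 0) ∨ v = List.replicate v.length 0) ∧
    (∀ w i, v = w ++ 1 :: List.replicate i 0 →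
      {x : ℕ∞ | ∃ d, 1 ≤ d ∧ A v 0 d = x} =
        {x : ℕ∞ | ∃ m : ℕ, x = m ∧ (m % 2 = 1 ∨
          ∃ g u, 1 ≤ g ∧ g ≤ i ∧ u % 2 = 1 ∧ u < 2 ^ (w.length + 1) ∧ m = 2 ^ g * u)}) ∧
    (v = List.replicate v.length 0 →
      {x : ℕ∞ | ∃ d, 1 ≤ d ∧ A v 0 d = x} =
        {x : ℕ∞ | ∃ m : ℕ, x = m ∧ ((m % 2 = 1 ∧ m < 2 ^ v.length) ∨
          ∃ g, 1 ≤ g ∧ g ≤ v.length ∧ m = 2 ^ g)}) ∧
    ((∀ d, 1 ≤ d → Asup v d < ⊤) ∧ {x : ℕ∞ | ∃ d, 1 ≤ d ∧ Asup v d = x}.Infinite) := by
  refine ⟨form v hv, ?_, ?_, fun d hd => Asup_lt_top hv hd, ?_⟩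
  · rintro w i rfl
    ext x
    constructor
    · rintro ⟨d, hd, rfl⟩
      obtain ⟨m, hm, _⟩ := A_spec hv hd
      exact ⟨m, hm, (values_one hv m).mp ⟨d, hd, hm⟩⟩
    · rintro ⟨m, rfl, h⟩
      exact (values_one hv m).mpr h
  · intro h0
    have hL : 1 ≤ v.length := List.length_pos_iff.mpr hv.1
    have hval := values_zero hL
    rw [← h0] at hval
    ext x
    constructor
    · rintro ⟨d, hd, rfl⟩
      obtain ⟨m, hm, _⟩ := A_spec hv hd
      exact ⟨m, hm, (hval m).mp ⟨d, hd, hm⟩⟩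
    · rintro ⟨m, rfl, h⟩
      exact (hval m).mpr h
  · intro hfin
    -- a finite set of finite values is bounded
    have hb : ∃ B : ℕ, ∀ x ∈ {x : ℕ∞ | ∃ d, 1 ≤ d ∧ Asup v d = x}, x < B := by
      have himg := hfin.image (fun x : ℕ∞ => x.toNat)
      obtain ⟨B, hB⟩ := himg.bddAbove
      refine ⟨B + 1, ?_⟩
      rintro x ⟨d, hd, rfl⟩
      have h1 : (Asup v d).toNat ≤ B := hB ⟨_, ⟨d, hd, rfl⟩, rfl⟩
      have h2 := (Asup_lt_top hv hd).ne
      rw [← ENat.natCast_toNat h2]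
      exact_mod_cast Nat.lt_succ_of_le h1
    obtain ⟨B, hB⟩ := hb
    obtain ⟨K, hK⟩ := A_diag_sup hv (p := 1) one_pos B
    have h1 := hK K le_rfl
    have h2 := hB _ ⟨2 ^ K * 1 + 2 ^ (v.length - 1) * 1, by
      have : 0 < 2 ^ K * 1 + 2 ^ (v.length - 1) * 1 := by positivity
      exact this, rfl⟩
    exact absurd h1 (not_le.mpr h2)

end Pool.Agent.Results.MP_956764_co.ValueSets
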